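import Pool.Agent.H76.GX.Targets

/-!
# SPT: splitting of the pieces of a free amalgam
-/

set_option autoImplicit false
set_option linter.unusedVariables false

namespace Pool.Agent.H58.GX

open Pool.Agent.H68.BP Pool.Agent.H58.SF Pool.Agent.H53.GC Pool.Agent.H53.GR Pool.Agent.H53.GM
open Pool.Agent.H53.GX Pool.Agent.H76.GX
open Classical

section

variable {τ : Sig} {N k : ℕ} {W J : Type}

lemma mem_gs_cast {I S e : Finset (Fin k)} (w : Fin k) :
    Fin.castAdd k w ∈ gs I S e ↔ w ∈ e ∧ w ∉ S := by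
  unfold gs ps cst
  rw [Finset.mem_union, Finset.mem_image, Finset.mem_image]
  constructor
  · rintro (⟨x, hx, h⟩ | ⟨x, hx, h⟩)
    · have hxw : x = w := Fin.ext (by simpa [Fin.ext_iff] using h)
      subst hxw
      exact Finset.mem_sdiff.1 hx
    · exfalso
      have h1 := congrArg Fin.val h
      simp only [Fin.val_natAdd, Fin.val_castAdd] at h1
      have := w.isLt
      omega
  · intro h
    exact Or.inl ⟨w, Finset.mem_sdiff.2 h, rfl⟩

lemma mem_gs_nat {I S e : Finset (Fin k)} (w : Fin k) :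
    Fin.natAdd k w ∈ gs I S e ↔ w ∈ I := by
  unfold gs ps cst
  rw [Finset.mem_union, Finset.mem_image, Finset.mem_image]
  constructor
  · rintro (⟨x, hx, h⟩ | ⟨x, hx, h⟩)
    · exfalso
      have h1 := congrArg Fin.val h
      simp only [Fin.val_natAdd, Fin.val_castAdd] at h1
      have := x.isLt
      omega
    · have hxw : x = w := Fin.ext (by
        have h1 := congrArg Fin.val h
        simp only [Fin.val_natAdd] at h1
        omega)
      subst hxw
      exact hx
  · intro h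
    exact Or.inr ⟨w, h, rfl⟩

/-- the vertex is in an atom -/
def InAt (D : Str τ (Fin N)) (v : Fin N) : Prop :=
  ∃ (l : Fin τ.m) (z : Fin (τ.ar l) → Fin N), D l z ∧ ∃ i, z i = v

/-- the roots in atoms -/
noncomputable def rtA (D : Str τ (Fin N)) (ρ : Fin N → Option J) (v : Fin N) : Option J :=
  if InAt D v then ρ v else none

lemma rc_rtA {D : Str τ (Fin N)} {ρ : Fin N → Option J} (h : RC D ρ) : RC D (rtA D ρ) := by
  intro S hS hA
  obtain ⟨v, hv, hρ⟩ := h {v | v ∈ S ∧ InAt D v} (by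
    rintro l z hz ⟨i, hi⟩ j
    exact ⟨hS l z hz ⟨i, hi.1⟩ j, l, z, hz, j, rfl⟩) (by
    obtain ⟨l, z, hz, hzS⟩ := hA
    exact ⟨l, z, hz, fun i => ⟨hzS i, l, z, hz, i, rfl⟩⟩)
  refine ⟨v, hv.1, ?_⟩
  unfold rtA
  rw [if_pos hv.2]
  exact hρ

lemma back_rtA {D : Str τ (Fin N)} {ρ : Fin N → Option J} (h : RC D ρ) (M : Str τ W) (b : J → W)
    (hq : (D, rtA D ρ) ∈ tp N M b) : (D, ρ) ∈ tp N M b := by
  obtain ⟨-, g, hg, hr⟩ := hq
  refine ⟨h, fun v => if InAt D v then g v else (ρ v).elim (g v) b, ?_, ?_⟩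
  · intro l z hz
    have h1 : (fun i => if InAt D (z i) then g (z i) else (ρ (z i)).elim (g (z i)) b) =
        fun i => g (z i) := by
      funext i
      rw [if_pos ⟨l, z, hz, i, rfl⟩]
    show M l (fun i => if InAt D (z i) then g (z i) else (ρ (z i)).elim (g (z i)) b)
    rw [h1]
    exact hg l z hz
  · intro v i hi
    show (if InAt D v then g v else (ρ v).elim (g v) b) = b i
    split_ifs with h2
    · refine hr v i ?_
      show rtA D ρ v = some i
      unfold rtA
      rw [if_pos h2]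
      exact hi
    · have h3 : ρ v = some i := hi
      rw [h3]
      rfl

/-- the number of atoms of a proper part -/
lemma atc_lt {D D' : Str τ (Fin N)} {ρ ρ' : Fin N → Option J} (h1 : ∀ l z, D' l z → D l z)
    (h2 : ∃ l z, D l z ∧ ¬ D' l z) :
    atc ((D', ρ') : Str τ (Fin N) × (Fin N → Option J)) < atc (D, ρ) := by
  unfold atc
  obtain ⟨l, z, hz, hz'⟩ := h2
  have hfin : Finite {x : Σ l : Fin τ.m, (Fin (τ.ar l) → Fin N) // D x.1 x.2} := by
    infer_instance
  have hinj : Function.Injective (fun x : {x : Σ l : Fin τ.m, (Fin (τ.ar l) → Fin N) //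
      D' x.1 x.2} => (⟨x.1, h1 _ _ x.2⟩ :
      {x : Σ l : Fin τ.m, (Fin (τ.ar l) → Fin N) // D x.1 x.2})) := by
    intro x y hxy
    exact Subtype.ext (congrArg (fun a => a.1) hxy)
  refine Nat.lt_of_le_of_ne (Nat.card_le_card_of_injective _ hinj) ?_
  intro heq
  have hfin' : Finite {x : Σ l : Fin τ.m, (Fin (τ.ar l) → Fin N) // D' x.1 x.2} := by
    infer_instance
  have hbij := (Nat.bijective_iff_injective_and_card _).2 ⟨hinj, heq⟩
  obtain ⟨x, hx⟩ := hbij.2 ⟨⟨l, z⟩, hz⟩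
  have h3 : x.1 = ⟨l, z⟩ := congrArg (fun a => a.1) hx
  have h4 := x.2
  rw [h3] at h4
  exact hz' h4

end

theorem pf_SPT (hTPB : Pool.Agent.H53.GM.T_TPB) (hGLU : Pool.Agent.H53.GM.T_GLU)
    (hGL2 : Pool.Agent.H53.GM.T_GL2) (hFRA : Pool.Agent.H76.GX.T_FRA)
    (hFAE : Pool.Agent.H76.GX.T_FAE) : Pool.Agent.H76.GX.T_SPT := by
  intro τ N k F I S e p t hH hk hSI hp ht hpt h q hq
  obtain ⟨W, hW, M, M₁, M₂, B₁, B₂, b, hF⟩ := hFRA τ N k F I S e p t hH hk hSI hp ht hpt
  rw [hFAE τ N k F I S e p t W M M₁ M₂ B₁ B₂ b hH hk hSI hF] at hq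
  obtain ⟨D, ρ⟩ := q
  obtain ⟨⟨hRC, f, hf, hfr⟩, hroot⟩ := hq
  simp only at hRC hf hfr hroot
  by_cases hcase : ∀ (l : Fin τ.m) (z : Fin (τ.ar l) → Fin N), D l z → M₂ l (fun i => f (z i))
  · left
    have hroot' : ∀ v i, rtA D ρ v = some i → ρ v = some i ∧ InAt D v := by
      intro v i hv
      unfold rtA at hv
      split_ifs at hv with h1
      exact ⟨hv, h1⟩
    have hin : ∀ v i, rtA D ρ v = some i → i ∈ gs I S e ∧ i ∈ gs I S (h ∩ e) := by
      intro v i hv
      obtain ⟨h1, l, z, hz, j, hj⟩ := hroot' v i hv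
      have h2 := hF.s2 l _ (hcase l z hz) j
      rw [hj, hfr v i h1] at h2
      have h3 := hF.r2 i h2
      have h4 := hroot v i h1
      refine ⟨h3, ?_⟩
      refine Fin.addCases (motive := fun i => i ∈ gs I S e → i ∈ gs I (S ∩ e) h →
        i ∈ gs I S (h ∩ e)) ?_ ?_ i h3 h4
      · intro w hw1 hw2
        rw [mem_gs_cast] at hw1 hw2 ⊢
        exact ⟨Finset.mem_inter.2 ⟨hw2.1, hw1.1⟩, hw1.2⟩
      · intro w hw1 hw2
        rw [mem_gs_nat] at hw1 ⊢
        exact hw1
    refine ⟨(D, rtA D ρ), ⟨?_, fun v i hv => (hin v i hv).2⟩, rfl, ?_⟩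
    · have h1 : ((D, rtA D ρ) : Str τ (Fin N) × (Fin N → Option (Fin (k + k)))) ∈
          rse (gs I S e) (tp N M₂ b) := by
        refine ⟨⟨rc_rtA hRC, f, hcase, fun v i hv => hfr v i (hroot' v i hv).1⟩,
          fun v i hv => (hin v i hv).1⟩
      rw [hF.t2] at h1
      exact h1.1
    · rintro t₂ ⟨W₂, -, M'', b'', -, rfl⟩ h1
      exact back_rtA hRC M'' b'' h1
  · right
    have hex : ∃ (l : Fin τ.m) (z : Fin (τ.ar l) → Fin N), D l z ∧ ¬ M₂ l (fun i => f (z i)) := by
      by_contra hcon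
      apply hcase
      intro l z hz
      by_contra h1
      exact hcon ⟨l, z, hz, h1⟩
    let ρ₂ : Fin N → Option (Fin (k + k)) := fun v =>
      if hv : ∃ w, w ∈ gs I S e ∧ f v = b w then some hv.choose else none
    let ρ₁ : Fin N → Option (Fin k) := fun v =>
      if hv : ∃ w, f v = b (rdp (S ∩ e) w) then some hv.choose else none
    have hρ₂ : ∀ v w, ρ₂ v = some w → w ∈ gs I S e ∧ f v = b w := by
      intro v w hv
      simp only [ρ₂] at hv
      split_ifs at hv with h1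
      rw [← Option.some.inj hv]
      exact h1.choose_spec
    have hρ₁ : ∀ v w, ρ₁ v = some w → f v = b (rdp (S ∩ e) w) := by
      intro v w hv
      simp only [ρ₁] at hv
      split_ifs at hv with h1
      rw [← Option.some.inj hv]
      exact h1.choose_spec
    have hρ₂n : ∀ v w, w ∈ gs I S e → f v = b w → ρ₂ v ≠ none := by
      intro v w h1 h2
      simp only [ρ₂]
      rw [dif_pos ⟨w, h1, h2⟩]
      exact Option.some_ne_none _
    have hρ₁n : ∀ v w, f v = b (rdp (S ∩ e) w) → ρ₁ v ≠ none := by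
      intro v w h2
      simp only [ρ₁]
      rw [dif_pos ⟨w, h2⟩]
      exact Option.some_ne_none _
    let Mi : Bool → Str τ W := fun i => if i = true then M₁ else M₂
    let B : Bool → Set W := fun i => if i = true then B₁ else B₂
    have hK : ∀ i j x, x ∈ B i → x ∈ B j → i ≠ j → x ∈ Set.range b := by
      have h0 : ∀ x, x ∈ B₁ → x ∈ B₂ → x ∈ Set.range b := by
        intro x h1 h2
        obtain ⟨v, -, hv⟩ := hF.int x h1 h2
        exact ⟨_, hv.symm⟩
      intro i j x hi hj hij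
      cases i <;> cases j
      · exact absurd rfl hij
      · exact h0 x hj hi
      · exact h0 x hi hj
      · exact absurd rfl hij
    have hun : ∀ (l : Fin τ.m) (z : Fin (τ.ar l) → W), M l z → ∃ i, Mi i l z := by
      intro l z hz
      rcases (hF.un l z).1 hz with h1 | h1
      · exact ⟨true, h1⟩
      · exact ⟨false, h1⟩
    have hBB : ∀ i (l : Fin τ.m) (z : Fin (τ.ar l) → W), Mi i l z → ∀ a, z a ∈ B i := by
      intro i l z hz
      cases i
      · exact hF.s2 l z hz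
      · exact hF.s1 l z hz
    have har : ∀ l, 1 ≤ τ.ar l := fun l => (hH.ar l).1
    have hrK : ∀ v, ρ v ≠ none → f v ∈ Set.range b := by
      intro v hv
      obtain ⟨i, hi⟩ := Option.ne_none_iff_exists'.1 hv
      exact ⟨i, (hfr v i hi).symm⟩
    have hRC₂ : RC (sub D f M₂) ρ₂ :=
      hGL2 τ N W Bool (Fin (k + k)) (Fin (k + k)) Mi B (Set.range b) M D f ρ har hK hun hBB hf
        hRC hrK false ρ₂ (by
          rintro v ⟨w, hw⟩ hv2
          have hv3 : f v ∈ B₂ := hv2
          rw [← hw] at hv3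
          exact hρ₂n v w (hF.r2 w hv3) hw.symm)
    have hRC₁ : RC (sub D f M₁) ρ₁ :=
      hGL2 τ N W Bool (Fin (k + k)) (Fin k) Mi B (Set.range b) M D f ρ har hK hun hBB hf
        hRC hrK true ρ₁ (by
          rintro v ⟨w, hw⟩ hv2
          have hv3 : f v ∈ B₁ := hv2
          rw [← hw] at hv3
          obtain ⟨u, hu⟩ := hF.r1 w hv3
          refine hρ₁n v u ?_
          rw [← hu]
          exact hw.symm)
    refine ⟨(sub D f M₂, ρ₂), ?_, ?_, ?_⟩
    · rw [← hF.t2]
      exact ⟨⟨hRC₂, f, fun l z hz => hz.2, fun v i hv => (hρ₂ v i hv).2⟩,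
        fun v i hv => (hρ₂ v i hv).1⟩
    · refine atc_lt (fun l z hz => hz.1) ?_
      obtain ⟨l, z, hz, hz2⟩ := hex
      exact ⟨l, z, hz, fun h1 => hz2 h1.2⟩
    · rintro t₂ ⟨W₂, -, M'', b'', -, rfl⟩ hpt₂ hq'
      let φ : W → W₂ := fun x => if hx : ∃ w, b w = x then b'' hx.choose else b'' ⟨0, by omega⟩
      have hφ : ∀ w, φ (b w) = b'' w := by
        intro w
        have h1 : ∃ w', b w' = b w := ⟨w, rfl⟩
        simp only [φ]
        rw [dif_pos h1, hF.inj h1.choose_spec]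
      have hp1 : ((sub D f M₁, ρ₁) : Str τ (Fin N) × (Fin N → Option (Fin k))) ∈ p := by
        rw [← hF.t1]
        exact ⟨hRC₁, f, fun l z hz => hz.2, fun v i hv => hρ₁ v i hv⟩
      obtain ⟨-, h₁, hh₁, hr₁⟩ := hpt₂ hp1
      obtain ⟨-, h₂, hh₂, hr₂⟩ := hq'
      obtain ⟨g, hg, hgK⟩ := hGLU τ N W W₂ Bool Mi B (Set.range b) M M'' φ D f hK hun hBB hf (by
        intro i
        cases i
        · refine ⟨h₂, hh₂, ?_⟩
          rintro v ⟨w, hw⟩ hv2
          have hv3 : f v ∈ B₂ := hv2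
          rw [← hw] at hv3
          have h3 := hρ₂n v w (hF.r2 w hv3) hw.symm
          obtain ⟨i, hi⟩ := Option.ne_none_iff_exists'.1 h3
          rw [(hρ₂ v i hi).2, hφ]
          exact hr₂ v i hi
        · refine ⟨h₁, hh₁, ?_⟩
          rintro v ⟨w, hw⟩ hv2
          have hv3 : f v ∈ B₁ := hv2
          rw [← hw] at hv3
          obtain ⟨u, hu⟩ := hF.r1 w hv3
          have h3 := hρ₁n v u (by rw [← hu]; exact hw.symm)
          obtain ⟨i, hi⟩ := Option.ne_none_iff_exists'.1 h3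
          rw [hρ₁ v i hi, hφ]
          refine hr₁ v (rdp (S ∩ e) i) ?_
          show (ρ₁ v).map (rdp (S ∩ e)) = some (rdp (S ∩ e) i)
          rw [hi]
          rfl)
      refine ⟨hRC, g, hg, fun v i hv => ?_⟩
      rw [hgK v ⟨i, (hfr v i hv).symm⟩, hfr v i hv, hφ]

end Pool.Agent.H58.GX
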